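import Mathlib

set_option autoImplicit false

namespace Pool.Agent.KS6_53.Sq

open Finset Matrix

/-- a maximiser has at most one coordinate different from `±1` -/
theorem extreme {N : ℕ} (y x0 : Fin N → ℝ) (hx0 : ∀ i, |x0 i| ≤ 1) :
    ∃ x : Fin N → ℝ, (∀ i, |x i| ≤ 1) ∧ x ⬝ᵥ y = x0 ⬝ᵥ y ∧ x0 ⬝ᵥ x0 ≤ x ⬝ᵥ x ∧
      ∀ i j, i ≠ j → |x i| = 1 ∨ |x j| = 1 := by
  set K : Set (Fin N → ℝ) := (Set.univ.pi fun _ => Set.Icc (-1 : ℝ) 1) ∩ {x | x ⬝ᵥ y = x0 ⬝ᵥ y} with hK
  have hcont : ∀ z : Fin N → ℝ, Continuous fun x : Fin N → ℝ => x ⬝ᵥ z := fun z => by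
    unfold dotProduct
    fun_prop
  have hcpt : IsCompact K := by
    refine (isCompact_univ_pi fun _ => isCompact_Icc).inter_right ?_
    exact isClosed_eq (hcont y) continuous_const
  have hmem : ∀ x, x ∈ K ↔ (∀ i, |x i| ≤ 1) ∧ x ⬝ᵥ y = x0 ⬝ᵥ y := by
    intro x
    rw [hK, Set.mem_inter_iff, Set.mem_univ_pi]
    refine and_congr (forall_congr' fun i => ?_) Iff.rfl
    rw [abs_le, Set.mem_Icc]
  obtain ⟨x, hx, hmax⟩ := hcpt.exists_isMaxOn ⟨x0, (hmem x0).2 ⟨hx0, rfl⟩⟩
    (f := fun x : Fin N → ℝ => x ⬝ᵥ x) (by unfold dotProduct; fun_prop)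
  have hmax' : ∀ z ∈ K, z ⬝ᵥ z ≤ x ⬝ᵥ x := fun z hz => hmax hz
  rw [hmem] at hx
  refine ⟨x, hx.1, hx.2, hmax' x0 ((hmem x0).2 ⟨hx0, rfl⟩), fun i j hij => ?_⟩
  by_contra hcon
  push Not at hcon
  obtain ⟨h1, h2⟩ := hcon
  have h1' : |x i| < 1 := lt_of_le_of_ne (hx.1 i) h1
  have h2' : |x j| < 1 := lt_of_le_of_ne (hx.1 j) h2
  obtain ⟨p, q, hpq, hpy⟩ : ∃ p q : ℝ, 0 < p ^ 2 + q ^ 2 ∧ p * y i + q * y j = 0 := by
    by_cases h : y i = 0
    · exact ⟨1, 0, by norm_num, by rw [h]; ring⟩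
    · exact ⟨y j, -y i, by rw [neg_sq]; positivity, by ring⟩
  set w : Fin N → ℝ := Pi.single i p + Pi.single j q with hw
  have hwi : w i = p := by simp [hw, hij]
  have hwj : w j = q := by simp [hw, hij.symm]
  have hwk : ∀ k, k ≠ i → k ≠ j → w k = 0 := by
    intro k h3 h4
    simp [hw, h3, h4]
  have hwy : w ⬝ᵥ y = 0 := by
    rw [hw, add_dotProduct, single_dotProduct, single_dotProduct]
    exact hpy
  have hww : w ⬝ᵥ w = p ^ 2 + q ^ 2 := by
    nth_rewrite 1 [hw]
    rw [add_dotProduct, single_dotProduct, single_dotProduct, hwi, hwj]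
    ring
  obtain ⟨ε, hε, he1, he2⟩ : ∃ ε : ℝ, 0 < ε ∧ |x i| + ε * |p| ≤ 1 ∧ |x j| + ε * |q| ≤ 1 := by
    refine ⟨min ((1 - |x i|) / (|p| + 1)) ((1 - |x j|) / (|q| + 1)), ?_, ?_, ?_⟩
    · refine lt_min ?_ ?_
      · exact div_pos (by linarith) (by positivity)
      · exact div_pos (by linarith) (by positivity)
    · have e1 := mul_le_mul_of_nonneg_right (min_le_left ((1 - |x i|) / (|p| + 1)) ((1 - |x j|) / (|q| + 1)))
        (abs_nonneg p)
      have e2 : (1 - |x i|) / (|p| + 1) * |p| ≤ 1 - |x i| := by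
        rw [div_mul_eq_mul_div, div_le_iff₀ (by positivity)]
        nlinarith [abs_nonneg p]
      linarith
    · have e1 := mul_le_mul_of_nonneg_right (min_le_right ((1 - |x i|) / (|p| + 1)) ((1 - |x j|) / (|q| + 1)))
        (abs_nonneg q)
      have e2 : (1 - |x j|) / (|q| + 1) * |q| ≤ 1 - |x j| := by
        rw [div_mul_eq_mul_div, div_le_iff₀ (by positivity)]
        nlinarith [abs_nonneg q]
      linarith
  have hin : ∀ δ : ℝ, |δ| = ε → x + δ • w ∈ K := by
    intro δ hδ
    rw [hmem]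
    refine ⟨fun k => ?_, ?_⟩
    · rw [Pi.add_apply, Pi.smul_apply, smul_eq_mul]
      by_cases h3 : k = i
      · subst h3
        rw [hwi]
        have := abs_add_le (x k) (δ * p)
        rw [abs_mul, hδ] at this
        linarith
      · by_cases h4 : k = j
        · subst h4
          rw [hwj]
          have := abs_add_le (x k) (δ * q)
          rw [abs_mul, hδ] at this
          linarith
        · rw [hwk k h3 h4, mul_zero, add_zero]
          exact hx.1 k
    · rw [add_dotProduct, smul_dotProduct, hwy, smul_zero, add_zero]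
      exact hx.2
  have h5 := hmax' _ (hin ε (abs_of_pos hε))
  have h6 := hmax' _ (hin (-ε) (by rw [abs_neg, abs_of_pos hε]))
  have e : ∀ δ : ℝ, (x + δ • w) ⬝ᵥ (x + δ • w) = x ⬝ᵥ x + 2 * δ * (x ⬝ᵥ w) + δ ^ 2 * (w ⬝ᵥ w) := by
    intro δ
    rw [add_dotProduct, dotProduct_add, dotProduct_add, smul_dotProduct, smul_dotProduct, dotProduct_smul,
      dotProduct_smul, dotProduct_comm w x]
    simp only [smul_eq_mul]
    ring
  rw [e, hww] at h5 h6
  have : 0 < ε ^ 2 * (p ^ 2 + q ^ 2) := by positivity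
  nlinarith

theorem sum_signs {ι : Type*} [DecidableEq ι] (S : Finset ι) (f : ι → ℝ) (hf : ∀ k ∈ S, |f k| = 1) :
    ∃ m : ℕ, m ≤ S.card ∧ ∑ k ∈ S, f k = S.card - 2 * m := by
  induction S using Finset.induction_on with
  | empty => exact ⟨0, le_rfl, by simp⟩
  | insert a S ha ih =>
    obtain ⟨m, hm, h⟩ := ih fun k hk => hf k (Finset.mem_insert_of_mem hk)
    rw [Finset.sum_insert ha, Finset.card_insert_of_notMem ha, h]
    rcases (abs_eq (by norm_num : (0 : ℝ) ≤ 1)).1 (hf a (Finset.mem_insert_self _ _)) with h1 | h1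
    · exact ⟨m, by omega, by rw [h1]; push_cast; ring⟩
    · exact ⟨m + 1, by omega, by rw [h1]; push_cast; ring⟩

/-- the condition for a rectangle with the squares `p`, `q` of the sides, `p ≥ q` -/
def Cond (N : ℕ) (p q : ℝ) : Prop :=
  (p ≤ N - 1 ∧ q ≤ 1) ∨ ∃ k : ℕ, 1 ≤ k ∧ k + 1 ≤ N ∧ |p - q - (N - 2 * k)| ≤ 2 ∧
    p + q ≤ N - 1 + ((p - q - (N - 2 * k)) / 2) ^ 2

theorem arith1 {N : ℕ} (hN : 2 ≤ N) {p q π : ℝ} {m : ℕ} (hm : m + 1 ≤ N) (hpq : q ≤ p)
    (hD : p - q = (N - 1 - 2 * m) + π) (hR : p + q ≤ N - 1 + |π|) (hπ : |π| ≤ 1) (hq : 0 ≤ q) : Cond N p q := by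
  have hN' : (2 : ℝ) ≤ N := by exact_mod_cast hN
  rcases le_or_gt 0 π with h | h
  · rw [abs_of_nonneg h] at hR hπ
    rcases Nat.eq_zero_or_pos m with hm0 | hm0
    · subst hm0
      push_cast at hD
      -- then `q = 0`
      refine Or.inr ⟨1, le_rfl, by omega, ?_, ?_⟩
      · push_cast
        rw [abs_le]
        constructor <;> linarith
      · push_cast
        nlinarith
    · by_cases h2 : m + 2 ≤ N
      · refine Or.inr ⟨m + 1, by omega, by omega, ?_, ?_⟩
        · push_cast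
          rw [abs_le]
          constructor <;> linarith
        · push_cast
          have e : p - q - (N - 2 * ((m : ℝ) + 1)) = 1 + π := by linarith
          rw [e]
          nlinarith [sq_nonneg (1 - π)]
      · have hm1 : (m : ℝ) = N - 1 := by
          have : m + 1 = N := by omega
          rw [← this]
          push_cast
          ring
        left
        rw [hm1] at hD
        constructor <;> linarith
  · rw [abs_of_neg h] at hR hπ
    rcases Nat.eq_zero_or_pos m with hm0 | hm0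
    · subst hm0
      push_cast at hD
      left
      constructor <;> linarith
    · refine Or.inr ⟨m, by omega, by omega, ?_, ?_⟩
      · rw [abs_le]
        constructor <;> linarith
      · have e : p - q - (N - 2 * (m : ℝ)) = -(1 - π) := by linarith
        rw [e]
        nlinarith [sq_nonneg (1 + π)]

theorem arith2 {N : ℕ} (hN : 2 ≤ N) {p q α β : ℝ} {m : ℕ} (hm : m + 2 ≤ N) (hpq : q ≤ p)
    (hD : p - q = (N - 2 - 2 * m) + α + β) (hR1 : p + q ≤ N - 1 + α ^ 2) (hR2 : p + q ≤ N - 1 + β ^ 2)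
    (hα : |α| ≤ 1) (hβ : |β| ≤ 1) : Cond N p q := by
  have hN' : (2 : ℝ) ≤ N := by exact_mod_cast hN
  rw [abs_le] at hα hβ
  -- the case of different signs
  have key : ∀ α β : ℝ, -1 ≤ α → α ≤ 1 → -1 ≤ β → β ≤ 1 → 0 ≤ α → β < 0 →
      p - q = (N - 2 - 2 * m) + α + β → p + q ≤ N - 1 + α ^ 2 → p + q ≤ N - 1 + β ^ 2 → Cond N p q := by
    intro α β h1 h2 h3 h4 hα0 hβ0 hD hR1 hR2
    rcases le_or_gt 0 (α + β) with h | h
    · have hR : p + q ≤ N - (α + β) := by nlinarith
      rcases Nat.eq_zero_or_pos m with hm0 | hm0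
      · subst hm0
        push_cast at hD
        left
        constructor <;> linarith
      · refine Or.inr ⟨m, by omega, by omega, ?_, ?_⟩
        · rw [abs_le]
          constructor <;> linarith
        · have e : p - q - (N - 2 * (m : ℝ)) = (α + β) - 2 := by linarith
          rw [e]
          nlinarith [sq_nonneg (α + β)]
    · have hR : p + q ≤ N + (α + β) := by nlinarith
      by_cases h2 : m + 3 ≤ N
      · refine Or.inr ⟨m + 2, by omega, by omega, ?_, ?_⟩
        · push_cast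
          rw [abs_le]
          constructor <;> linarith
        · push_cast
          have e : p - q - (N - 2 * ((m : ℝ) + 2)) = (α + β) + 2 := by linarith
          rw [e]
          nlinarith [sq_nonneg (α + β)]
      · have hm1 : (m : ℝ) = N - 2 := by
          have : m + 2 = N := by omega
          rw [← this]
          push_cast
          ring
        rw [hm1] at hD
        exfalso
        linarith
  have same : 0 ≤ α * β → Cond N p q := by
    intro h
    refine Or.inr ⟨m + 1, by omega, by omega, ?_, ?_⟩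
    · push_cast
      rw [abs_le]
      constructor <;> linarith
    · push_cast
      have e : p - q - (N - 2 * ((m : ℝ) + 1)) = α + β := by linarith
      rw [e]
      rcases le_total (α ^ 2) (β ^ 2) with h5 | h5 <;> nlinarith
  rcases le_or_gt 0 α with h1 | h1
  · rcases le_or_gt 0 β with h2 | h2
    · exact same (mul_nonneg h1 h2)
    · exact key α β hα.1 hα.2 hβ.1 hβ.2 h1 h2 hD hR1 hR2
  · rcases le_or_gt 0 β with h2 | h2
    · exact key β α hβ.1 hβ.2 hα.1 hα.2 h2 h1 (by linarith) hR2 hR1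
    · exact same (mul_nonneg_of_nonpos_of_nonpos h1.le h2.le)

end Pool.Agent.KS6_53.Sq
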