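import Pool.Agent.KS6_53.Sq.A1

set_option autoImplicit false

namespace Pool.Agent.KS6_53.Sq

open Finset Matrix

theorem exists_free {N : ℕ} (hN : 1 ≤ N) (x : Fin N → ℝ) (h : ∀ i j, i ≠ j → |x i| = 1 ∨ |x j| = 1) :
    ∃ i, ∀ j, j ≠ i → |x j| = 1 := by
  by_cases h1 : ∃ i, |x i| ≠ 1
  · obtain ⟨i, hi⟩ := h1
    exact ⟨i, fun j hj => (h i j hj.symm).resolve_left hi⟩
  · push Not at h1
    exact ⟨⟨0, hN⟩, fun j _ => h1 j⟩

theorem norm_free {N : ℕ} (x : Fin N → ℝ) (i : Fin N) (h : ∀ j, j ≠ i → |x j| = 1) :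
    x ⬝ᵥ x = N - 1 + x i ^ 2 := by
  unfold dotProduct
  rw [← Finset.add_sum_erase _ _ (Finset.mem_univ i)]
  have e : ∑ k ∈ (Finset.univ.erase i), x k * x k = ∑ k ∈ (Finset.univ.erase i), (1 : ℝ) := by
    refine Finset.sum_congr rfl fun k hk => ?_
    rw [← abs_mul_abs_self, h k (Finset.ne_of_mem_erase hk), one_mul]
  rw [e, Finset.sum_const, Finset.card_erase_of_mem (Finset.mem_univ i), Finset.card_univ, Fintype.card_fin,
    nsmul_eq_mul, mul_one]
  have hN : 1 ≤ N := by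
    have := i.isLt
    omega
  rw [Nat.cast_sub hN]
  push_cast
  ring

/-- the upper bound -/
theorem cond_of {N : ℕ} (hN : 2 ≤ N) (x y : Fin N → ℝ) (hx : ∀ i, |x i| ≤ 1) (hy : ∀ i, |y i| ≤ 1)
    {p q : ℝ} (hq : 0 ≤ q) (hpq : q ≤ p) (hxx : p + q ≤ x ⬝ᵥ x) (hyy : p + q ≤ y ⬝ᵥ y) (hxy : x ⬝ᵥ y = p - q) :
    Cond N p q := by
  obtain ⟨x', hx1, hx2, hx3, hx4⟩ := extreme y x hx
  obtain ⟨y', hy1, hy2, hy3, hy4⟩ := extreme x' y hy
  obtain ⟨i, hi⟩ := exists_free (by omega) x' hx4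
  obtain ⟨j, hj⟩ := exists_free (by omega) y' hy4
  have h1 : p + q ≤ N - 1 + x' i ^ 2 := by
    rw [← norm_free x' i hi]
    exact hxx.trans hx3
  have h2 : p + q ≤ N - 1 + y' j ^ 2 := by
    rw [← norm_free y' j hj]
    exact hyy.trans hy3
  have h3 : x' ⬝ᵥ y' = p - q := by
    rw [dotProduct_comm, hy2, dotProduct_comm, hx2, hxy]
  have hprod : ∀ k, k ≠ i → k ≠ j → |x' k * y' k| = 1 := by
    intro k h4 h5
    rw [abs_mul, hi k h4, hj k h5, one_mul]
  by_cases hij : i = j
  · subst hij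
    obtain ⟨m, hm, hs⟩ := sum_signs (Finset.univ.erase i) (fun k => x' k * y' k) fun k hk =>
      hprod k (Finset.ne_of_mem_erase hk) (Finset.ne_of_mem_erase hk)
    rw [Finset.card_erase_of_mem (Finset.mem_univ i), Finset.card_univ, Fintype.card_fin] at hm hs
    have h4 : p - q = (N - 1 - 2 * m) + x' i * y' i := by
      rw [← h3]
      unfold dotProduct
      rw [← Finset.add_sum_erase _ _ (Finset.mem_univ i), hs, Nat.cast_sub (by omega)]
      push_cast
      ring
    refine arith1 hN (m := m) (by omega) hpq h4 ?_ ?_ hq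
    · rw [abs_mul]
      have e1 : x' i ^ 2 = |x' i| ^ 2 := (sq_abs _).symm
      have e2 : y' i ^ 2 = |y' i| ^ 2 := (sq_abs _).symm
      rw [e1] at h1
      rw [e2] at h2
      rcases le_total (|x' i|) (|y' i|) with h | h
      · nlinarith [abs_nonneg (x' i), abs_nonneg (y' i)]
      · nlinarith [abs_nonneg (x' i), abs_nonneg (y' i)]
    · rw [abs_mul]
      exact mul_le_one₀ (hx1 i) (abs_nonneg _) (hy1 i)
  · obtain ⟨m, hm, hs⟩ := sum_signs ((Finset.univ.erase i).erase j) (fun k => x' k * y' k) fun k hk =>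
      hprod k (Finset.ne_of_mem_erase (Finset.mem_of_mem_erase hk)) (Finset.ne_of_mem_erase hk)
    have hmem : j ∈ (Finset.univ : Finset (Fin N)).erase i := Finset.mem_erase.2 ⟨fun h => hij h.symm, Finset.mem_univ _⟩
    rw [Finset.card_erase_of_mem hmem, Finset.card_erase_of_mem (Finset.mem_univ i), Finset.card_univ,
      Fintype.card_fin] at hm hs
    have h4 : p - q = (N - 2 - 2 * m) + x' i * y' i + x' j * y' j := by
      rw [← h3]
      unfold dotProduct
      rw [← Finset.add_sum_erase _ _ (Finset.mem_univ i), ← Finset.add_sum_erase _ _ hmem, hs,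
        Nat.sub_sub, Nat.cast_sub (by omega)]
      push_cast
      ring
    have e1 : (x' i * y' i) ^ 2 = x' i ^ 2 := by
      rw [mul_pow, ← sq_abs (y' i), hj i hij]
      ring
    have e2 : (x' j * y' j) ^ 2 = y' j ^ 2 := by
      rw [mul_pow, ← sq_abs (x' j), hi j (fun h => hij h.symm)]
      ring
    refine arith2 hN (m := m) (by omega) hpq h4 (by rw [e1]; exact h1) (by rw [e2]; exact h2) ?_ ?_
    · rw [abs_mul]
      exact mul_le_one₀ (hx1 i) (abs_nonneg _) (hy1 i)
    · rw [abs_mul]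
      exact mul_le_one₀ (hx1 j) (abs_nonneg _) (hy1 j)

theorem sum_eps (M j : ℕ) (hj : j ≤ M) :
    ∑ i ∈ Finset.range M, (if i < j then (-1 : ℝ) else 1) = M - 2 * j := by
  induction M with
  | zero =>
    have : j = 0 := by omega
    subst this
    simp
  | succ M ih =>
    rw [Finset.sum_range_succ]
    rcases Nat.lt_or_ge M j with h | h
    · have h1 : j = M + 1 := by omega
      have h2 : ∑ i ∈ Finset.range M, (if i < j then (-1 : ℝ) else 1) = ∑ i ∈ Finset.range M, (-1 : ℝ) := by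
        refine Finset.sum_congr rfl fun i hi => ?_
        rw [Finset.mem_range] at hi
        rw [if_pos (by omega)]
      rw [h2, if_pos h, Finset.sum_const, Finset.card_range, h1]
      simp
      ring
    · rw [ih h, if_neg (by omega)]
      push_cast
      ring

/-- the construction -/
theorem exists_pair {N k : ℕ} (hk1 : 1 ≤ k) (hk2 : k + 1 ≤ N) (τ : ℝ) (hτ : |τ| ≤ 1) :
    ∃ x y : Fin N → ℝ, (∀ i, |x i| ≤ 1) ∧ (∀ i, |y i| ≤ 1) ∧ x ⬝ᵥ x = N - 1 + τ ^ 2 ∧
      y ⬝ᵥ y = N - 1 + τ ^ 2 ∧ x ⬝ᵥ y = N - 2 * k + 2 * τ := by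
  obtain ⟨M, rfl⟩ : ∃ M, N = M + 2 := ⟨N - 2, by omega⟩
  set X : ℕ → ℝ := fun i => if i = 0 then τ else 1 with hX
  set Y : ℕ → ℝ := fun i => if i = 0 then 1 else if i = 1 then τ else if i < k + 1 then -1 else 1 with hY
  have hX1 : ∀ i, |X i| ≤ 1 := by
    intro i
    simp only [hX]
    split_ifs
    · exact hτ
    · simp
  have hY1 : ∀ i, |Y i| ≤ 1 := by
    intro i
    simp only [hY]
    split_ifs
    · simp
    · exact hτ
    · simp
    · simp
  have hsum : ∀ f : ℕ → ℝ, ∑ i : Fin (M + 2), f i = ∑ i ∈ Finset.range M, f (i + 2) + f 1 + f 0 := by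
    intro f
    rw [Fin.sum_univ_eq_sum_range, Finset.sum_range_succ', Finset.sum_range_succ']
  refine ⟨fun i => X i, fun i => Y i, fun i => hX1 i, fun i => hY1 i, ?_, ?_, ?_⟩
  · show ∑ i : Fin (M + 2), X i * X i = _
    rw [hsum fun i => X i * X i]
    have e : ∀ i ∈ Finset.range M, X (i + 2) * X (i + 2) = 1 := by
      intro i _
      simp [hX]
    rw [Finset.sum_congr rfl e]
    simp [hX]
    ring
  · show ∑ i : Fin (M + 2), Y i * Y i = _
    rw [hsum fun i => Y i * Y i]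
    have e : ∀ i ∈ Finset.range M, Y (i + 2) * Y (i + 2) = 1 := by
      intro i _
      simp only [hY]
      rw [if_neg (by omega), if_neg (by omega)]
      split_ifs <;> norm_num
    rw [Finset.sum_congr rfl e]
    simp [hY]
    ring
  · show ∑ i : Fin (M + 2), X i * Y i = _
    rw [hsum fun i => X i * Y i]
    have e : ∀ i ∈ Finset.range M, X (i + 2) * Y (i + 2) = if i < k - 1 then -1 else 1 := by
      intro i _
      simp only [hX, hY]
      rw [if_neg (by omega), if_neg (by omega), if_neg (by omega), one_mul]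
      by_cases h : i < k - 1
      · rw [if_pos h, if_pos (by omega)]
      · rw [if_neg h, if_neg (by omega)]
    rw [Finset.sum_congr rfl e, sum_eps M (k - 1) (by omega), Nat.cast_sub hk1]
    simp [hX, hY]
    ring

end Pool.Agent.KS6_53.Sq
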