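import Pool.Agent.KS6_53.Sq.A2

set_option autoImplicit false

namespace Pool.Agent.KS6_53.Sq

open Finset Matrix

/-- a rectangle with the sides `a`, `b` in the unit cube of dimension `N`: the vertex `c` and the
orthogonal side vectors `u`, `v` -/
def Inscribed (N : ℕ) (a b : ℝ) : Prop :=
  ∃ c u v : Fin N → ℝ, u ⬝ᵥ u = a ^ 2 ∧ v ⬝ᵥ v = b ^ 2 ∧ u ⬝ᵥ v = 0 ∧
    ∀ s t : ℝ, 0 ≤ s → s ≤ 1 → 0 ≤ t → t ≤ 1 → ∀ i, 0 ≤ c i + s * u i + t * v i ∧ c i + s * u i + t * v i ≤ 1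

theorem inscribed_of {N : ℕ} {a b : ℝ} (u v : Fin N → ℝ) (h1 : u ⬝ᵥ u = a ^ 2) (h2 : v ⬝ᵥ v = b ^ 2)
    (h3 : u ⬝ᵥ v = 0) (h4 : ∀ i, |u i| + |v i| ≤ 1) : Inscribed N a b := by
  refine ⟨fun i => 1 / 2 - (u i + v i) / 2, u, v, h1, h2, h3, fun s t hs0 hs1 ht0 ht1 i => ?_⟩
  have e : 1 / 2 - (u i + v i) / 2 + s * u i + t * v i = 1 / 2 + ((s - 1 / 2) * u i + (t - 1 / 2) * v i) := by ring
  have h5 : |(s - 1 / 2) * u i + (t - 1 / 2) * v i| ≤ 1 / 2 := by
    refine (abs_add_le _ _).trans ?_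
    rw [abs_mul, abs_mul]
    have e1 : |s - 1 / 2| ≤ 1 / 2 := by rw [abs_le]; constructor <;> linarith
    have e2 : |t - 1 / 2| ≤ 1 / 2 := by rw [abs_le]; constructor <;> linarith
    have e3 := mul_le_mul_of_nonneg_right e1 (abs_nonneg (u i))
    have e4 := mul_le_mul_of_nonneg_right e2 (abs_nonneg (v i))
    have := h4 i
    linarith
  simp only [e]
  rw [abs_le] at h5
  constructor <;> linarith

theorem inscribed_mono {N : ℕ} {a b p q : ℝ} (u v : Fin N → ℝ) (h1 : u ⬝ᵥ u = p) (h2 : v ⬝ᵥ v = q)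
    (h3 : u ⬝ᵥ v = 0) (h4 : ∀ i, |u i| + |v i| ≤ 1) (ha : a ^ 2 ≤ p) (hb : b ^ 2 ≤ q) : Inscribed N a b := by
  have hp : 0 ≤ p := (sq_nonneg a).trans ha
  have hq : 0 ≤ q := (sq_nonneg b).trans hb
  have key : ∀ r s : ℝ, 0 ≤ r → r ≤ s → ∃ l : ℝ, 0 ≤ l ∧ l ≤ 1 ∧ l ^ 2 * s = r := by
    intro r s hr hrs
    rcases eq_or_lt_of_le (hr.trans hrs) with h | h
    · exact ⟨0, le_rfl, zero_le_one, by rw [← h] at hrs ⊢; linarith⟩
    · refine ⟨Real.sqrt (r / s), Real.sqrt_nonneg _, ?_, ?_⟩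
      · rw [Real.sqrt_le_one]
        exact (div_le_one h).2 hrs
      · rw [Real.sq_sqrt (by positivity), div_mul_cancel₀ _ h.ne']
  obtain ⟨l, hl0, hl1, hl⟩ := key _ _ (sq_nonneg a) ha
  obtain ⟨m, hm0, hm1, hm⟩ := key _ _ (sq_nonneg b) hb
  refine inscribed_of (l • u) (m • v) ?_ ?_ ?_ fun i => ?_
  · rw [smul_dotProduct, dotProduct_smul, h1, smul_eq_mul, smul_eq_mul, ← hl]
    ring
  · rw [smul_dotProduct, dotProduct_smul, h2, smul_eq_mul, smul_eq_mul, ← hm]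
    ring
  · rw [smul_dotProduct, dotProduct_smul, h3, smul_zero, smul_zero]
  · rw [Pi.smul_apply, Pi.smul_apply, smul_eq_mul, smul_eq_mul, abs_mul, abs_mul, abs_of_nonneg hl0,
      abs_of_nonneg hm0]
    have e1 := mul_le_mul_of_nonneg_right hl1 (abs_nonneg (u i))
    have e2 := mul_le_mul_of_nonneg_right hm1 (abs_nonneg (v i))
    have := h4 i
    linarith

theorem dot_sum {N : ℕ} (x y : Fin N → ℝ) :
    (((1 : ℝ) / 2) • (x + y)) ⬝ᵥ (((1 : ℝ) / 2) • (x + y)) = (x ⬝ᵥ x + 2 * (x ⬝ᵥ y) + y ⬝ᵥ y) / 4 := by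
  rw [smul_dotProduct, dotProduct_smul, add_dotProduct, dotProduct_add, dotProduct_add, dotProduct_comm y x]
  simp only [smul_eq_mul]
  ring

theorem dot_sub {N : ℕ} (x y : Fin N → ℝ) :
    (((1 : ℝ) / 2) • (x - y)) ⬝ᵥ (((1 : ℝ) / 2) • (x - y)) = (x ⬝ᵥ x - 2 * (x ⬝ᵥ y) + y ⬝ᵥ y) / 4 := by
  rw [smul_dotProduct, dotProduct_smul, sub_dotProduct, dotProduct_sub, dotProduct_sub, dotProduct_comm y x]
  simp only [smul_eq_mul]
  ring

theorem dot_mix {N : ℕ} (x y : Fin N → ℝ) :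
    (((1 : ℝ) / 2) • (x + y)) ⬝ᵥ (((1 : ℝ) / 2) • (x - y)) = (x ⬝ᵥ x - y ⬝ᵥ y) / 4 := by
  rw [smul_dotProduct, dotProduct_smul, add_dotProduct, dotProduct_sub, dotProduct_sub, dotProduct_comm y x]
  simp only [smul_eq_mul]
  ring

theorem abs_half (x y : ℝ) (hx : |x| ≤ 1) (hy : |y| ≤ 1) : |1 / 2 * (x + y)| + |1 / 2 * (x - y)| ≤ 1 := by
  rw [abs_le] at hx hy
  rcases abs_cases (1 / 2 * (x + y)) with ⟨h1, _⟩ | ⟨h1, _⟩ <;>
    rcases abs_cases (1 / 2 * (x - y)) with ⟨h2, _⟩ | ⟨h2, _⟩ <;> rw [h1, h2] <;> linarith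

/-- **all rectangles in the unit cube** -/
theorem main {N : ℕ} (hN : 2 ≤ N) {a b : ℝ} (hb : 0 ≤ b) (hab : b ≤ a) :
    Inscribed N a b ↔ Cond N (a ^ 2) (b ^ 2) := by
  have hN' : (2 : ℝ) ≤ N := by exact_mod_cast hN
  have hab2 : b ^ 2 ≤ a ^ 2 := by nlinarith
  constructor
  · rintro ⟨c, u, v, h1, h2, h3, h4⟩
    have hx : ∀ i, |(u + v) i| ≤ 1 := by
      intro i
      have e1 := h4 0 0 le_rfl zero_le_one le_rfl zero_le_one i
      have e2 := h4 1 1 zero_le_one le_rfl zero_le_one le_rfl i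
      rw [Pi.add_apply, abs_le]
      constructor <;> linarith
    have hy : ∀ i, |(u - v) i| ≤ 1 := by
      intro i
      have e1 := h4 1 0 zero_le_one le_rfl le_rfl zero_le_one i
      have e2 := h4 0 1 le_rfl zero_le_one zero_le_one le_rfl i
      rw [Pi.sub_apply, abs_le]
      constructor <;> linarith
    refine cond_of hN (u + v) (u - v) hx hy (sq_nonneg b) hab2 ?_ ?_ ?_
    · rw [add_dotProduct, dotProduct_add, dotProduct_add, dotProduct_comm v u, h1, h2, h3]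
      linarith
    · rw [sub_dotProduct, dotProduct_sub, dotProduct_sub, dotProduct_comm v u, h1, h2, h3]
      linarith
    · rw [add_dotProduct, dotProduct_sub, dotProduct_sub, dotProduct_comm v u, h1, h2, h3]
      ring
  · rintro (⟨h1, h2⟩ | ⟨k, hk1, hk2, h3, h4⟩)
    · -- along the last axis
      obtain ⟨M, rfl⟩ : ∃ M, N = M + 1 := ⟨N - 1, by omega⟩
      push_cast at h1
      refine inscribed_mono (p := M) (q := 1) (fun i : Fin (M + 1) => if i = Fin.last M then 0 else 1)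
        (Pi.single (Fin.last M) 1) ?_ ?_ ?_ ?_ (by linarith) h2
      · unfold dotProduct
        rw [Fin.sum_univ_castSucc]
        have e : ∀ i : Fin M, (Fin.castSucc i) ≠ Fin.last M := fun i => (Fin.castSucc_lt_last i).ne
        simp [e]
      · rw [single_dotProduct]
        simp
      · rw [dotProduct_single]
        simp
      · intro i
        by_cases h : i = Fin.last M
        · subst h
          simp
        · simp [h]
    · set τ : ℝ := (a ^ 2 - b ^ 2 - (N - 2 * k)) / 2 with hτ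
      have hτ1 : |τ| ≤ 1 := by
        rw [hτ, abs_div, abs_of_pos (by norm_num : (0 : ℝ) < 2)]
        linarith
      obtain ⟨x, y, hx, hy, hxx, hyy, hxy⟩ := exists_pair hk1 hk2 τ hτ1
      refine inscribed_mono (((1 : ℝ) / 2) • (x + y)) (((1 : ℝ) / 2) • (x - y)) (dot_sum x y) (dot_sub x y)
        ?_ ?_ ?_ ?_
      · rw [dot_mix, hxx, hyy]
        simp
      · intro i
        rw [Pi.smul_apply, Pi.smul_apply, smul_eq_mul, smul_eq_mul, Pi.add_apply, Pi.sub_apply]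
        exact abs_half _ _ (hx i) (hy i)
      · rw [hxx, hyy, hxy]
        have : 2 * τ = a ^ 2 - b ^ 2 - (N - 2 * k) := by rw [hτ]; ring
        linarith
      · rw [hxx, hyy, hxy]
        have : 2 * τ = a ^ 2 - b ^ 2 - (N - 2 * k) := by rw [hτ]; ring
        linarith

/-- the squares -/
theorem squares (n : ℕ) (hn : 1 ≤ n) :
    IsGreatest {s : ℝ | 0 ≤ s ∧ Inscribed (2 * n + 1) s s} (Real.sqrt ((8 * n + 1) / 8)) := by
  have hn' : (1 : ℝ) ≤ n := by exact_mod_cast hn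
  have hs : Real.sqrt ((8 * n + 1) / 8) ^ 2 = (8 * n + 1) / 8 := Real.sq_sqrt (by positivity)
  constructor
  · refine ⟨Real.sqrt_nonneg _, (main (by omega) (Real.sqrt_nonneg _) le_rfl).2 (Or.inr ⟨n, hn, by omega, ?_, ?_⟩)⟩
    · push_cast
      rw [abs_le]
      constructor <;> linarith
    · rw [hs]
      push_cast
      nlinarith
  · rintro s ⟨hs0, hs1⟩
    rw [main (by omega) hs0 le_rfl] at hs1
    refine Real.le_sqrt_of_sq_le ?_
    rcases hs1 with ⟨_, h2⟩ | ⟨k, hk1, hk2, h3, h4⟩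
    · linarith
    · push_cast at h3 h4
      rw [abs_le] at h3
      have h5 : 2 * (n : ℝ) - 1 ≤ 2 * k ∧ 2 * (k : ℝ) ≤ 2 * n + 3 := ⟨by linarith, by linarith⟩
      have h6 : 2 * n ≤ 2 * k + 1 := by
        have : (2 * n : ℝ) ≤ 2 * k + 1 := by linarith
        exact_mod_cast this
      have h7 : 2 * k ≤ 2 * n + 3 := by exact_mod_cast h5.2
      have h8 : k = n ∨ k = n + 1 := by omega
      rcases h8 with rfl | rfl
      · nlinarith
      · push_cast at h4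
        nlinarith

end Pool.Agent.KS6_53.Sq
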